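import Pool.Agent.Q68.LC.Bas1

/-! Project LC: the walk in an environment (BAS2). -/

set_option autoImplicit false

namespace Pool.Agent.Q68.LC

open Finset Equiv Matrix Q292.LC

variable {V : Type} [Fintype V] [DecidableEq V]

lemma pm_nonneg (g : Perm V) (x y : V) : 0 ≤ pm g x y := by
  unfold pm
  rw [Matrix.of_apply]
  split_ifs <;> norm_num

lemma pm_row (g : Perm V) (x : V) : ∑ y, pm g x y = 1 := by
  unfold pm
  simp only [Matrix.of_apply]
  rw [Finset.sum_ite_eq Finset.univ (g x) (fun _ => (1:ℝ)), if_pos (Finset.mem_univ _)]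

lemma pm_col (g : Perm V) (y : V) : ∑ x, pm g x y = 1 := by
  unfold pm
  simp only [Matrix.of_apply]
  have : ∀ x : V, (g x = y) ↔ (x = g.symm y) := fun x => by
    rw [Equiv.eq_symm_apply]
  simp only [this]
  rw [Finset.sum_ite_eq' Finset.univ (g.symm y) (fun _ => (1:ℝ)), if_pos (Finset.mem_univ _)]

lemma pm_one : pm (1 : Perm V) = 1 := by
  ext a b
  unfold pm
  rw [Matrix.of_apply, Matrix.one_apply]
  rfl

/-- doubly stochastic matrices -/
structure DS (M : Matrix V V ℝ) : Prop where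
  nn : ∀ x y, 0 ≤ M x y
  row : ∀ x, ∑ y, M x y = 1
  col : ∀ y, ∑ x, M x y = 1

lemma DS_pm (g : Perm V) : DS (pm g) := ⟨pm_nonneg g, pm_row g, pm_col g⟩

lemma DS_one : DS (1 : Matrix V V ℝ) := by
  rw [← pm_one]
  exact DS_pm 1

lemma DS_mul {M N : Matrix V V ℝ} (hM : DS M) (hN : DS N) : DS (M * N) := by
  refine ⟨fun x y => ?_, fun x => ?_, fun y => ?_⟩
  · rw [Matrix.mul_apply]
    exact Finset.sum_nonneg fun z _ => mul_nonneg (hM.nn _ _) (hN.nn _ _)
  · simp only [Matrix.mul_apply]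
    rw [Finset.sum_comm]
    simp only [← Finset.mul_sum, hN.row, mul_one, hM.row]
  · simp only [Matrix.mul_apply]
    rw [Finset.sum_comm]
    simp only [← Finset.sum_mul, hM.col, one_mul, hN.col]

lemma DS_fr {δ : ℝ} (h0 : 0 ≤ δ) (h1 : δ ≤ 1) (p : V × V) : DS (fr δ p) := by
  have ho := DS_one (V := V)
  have hp := DS_pm (swap p.1 p.2)
  unfold fr
  refine ⟨fun x y => ?_, fun x => ?_, fun y => ?_⟩
  · rw [Matrix.add_apply, Matrix.smul_apply, Matrix.smul_apply, smul_eq_mul, smul_eq_mul]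
    exact add_nonneg (mul_nonneg (by linarith) (ho.nn _ _)) (mul_nonneg h0 (hp.nn _ _))
  · simp only [Matrix.add_apply, Matrix.smul_apply, smul_eq_mul, Finset.sum_add_distrib,
      ← Finset.mul_sum, ho.row, hp.row]
    ring
  · simp only [Matrix.add_apply, Matrix.smul_apply, smul_eq_mul, Finset.sum_add_distrib,
      ← Finset.mul_sum, ho.col, hp.col]
    ring

lemma DS_Mx (e : ℕ → V × V) (ω : ℕ → Bool) (A : Finset V) {δ : ℝ} (h0 : 0 ≤ δ) (h1 : δ ≤ 1)
    (k : ℕ) : DS (Mx e ω A δ k) := by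
  unfold Mx
  split_ifs
  · exact DS_pm _
  · exact DS_one
  · exact DS_fr h0 h1 _

lemma DS_TT (e : ℕ → V × V) (ω : ℕ → Bool) (A : Finset V) {δ : ℝ} (h0 : 0 ≤ δ) (h1 : δ ≤ 1)
    (n : ℕ) : DS (TT e ω A δ n) := by
  induction n with
  | zero => exact DS_one
  | succ n ih => exact DS_mul ih (DS_Mx e ω A h0 h1 n)

/-- one step follows the particles of `A` -/
lemma Mx_row (e : ℕ → V × V) (ω : ℕ → Bool) (A : Finset V) (δ : ℝ) (k : ℕ) {a : V} (ha : a ∈ A)
    (y : V) : Mx e ω A δ k (gp e ω k a) y = if gp e ω (k + 1) a = y then 1 else 0 := by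
  unfold Mx
  by_cases ht : tch e ω A k
  · rw [if_pos ht]
    by_cases hω : ω k = true
    · rw [if_pos hω]
      unfold pm
      rw [Matrix.of_apply]
      simp only [gp, if_pos hω, Perm.mul_apply]
    · rw [if_neg hω, Matrix.one_apply]
      simp only [gp, if_neg hω]
  · rw [if_neg ht, gp_succ_not ht ha]
    rw [tch_iff] at ht
    push Not at ht
    obtain ⟨h1, h2⟩ := ht a ha
    unfold fr pm
    rw [Matrix.add_apply, Matrix.smul_apply, Matrix.smul_apply, Matrix.of_apply, Matrix.one_apply,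
      swap_apply_of_ne_of_ne h1 h2]
    split_ifs <;> simp

lemma TT_row (e : ℕ → V × V) (ω : ℕ → Bool) (A : Finset V) (δ : ℝ) (n : ℕ) {a : V} (ha : a ∈ A)
    (y : V) : TT e ω A δ n a y = if gp e ω n a = y then 1 else 0 := by
  induction n generalizing y with
  | zero =>
    show (1 : Matrix V V ℝ) a y = _
    rw [Matrix.one_apply]
    rfl
  | succ n ih =>
    show (TT e ω A δ n * Mx e ω A δ n) a y = _
    rw [Matrix.mul_apply]
    simp only [ih, ite_mul, one_mul, zero_mul]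
    rw [Finset.sum_ite_eq, if_pos (Finset.mem_univ _)]
    exact Mx_row e ω A δ n ha y

lemma Mx_sh (e : ℕ → V × V) (ω : ℕ → Bool) (A : Finset V) (δ : ℝ) (i n : ℕ) :
    Mx e ω A δ (i + n) = Mx (sh i e) (sh i ω) (A.image (gp e ω i)) δ n := by
  have h1 : tch e ω A (i + n) ↔ tch (sh i e) (sh i ω) (A.image (gp e ω i)) n := by
    rw [tch_iff, tch_iff]
    constructor
    · rintro ⟨a, ha, h⟩
      refine ⟨gp e ω i a, Finset.mem_image_of_mem _ ha, ?_⟩
      rw [← Perm.mul_apply, ← gp_add]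
      simp only [sh, add_comm n i]
      exact h
    · rintro ⟨b, hb, h⟩
      obtain ⟨a, ha, rfl⟩ := Finset.mem_image.1 hb
      refine ⟨a, ha, ?_⟩
      rw [← Perm.mul_apply, ← gp_add] at h
      simp only [sh, add_comm n i] at h
      exact h
  unfold Mx
  simp only [h1, sh, add_comm n i]

lemma TT_add (e : ℕ → V × V) (ω : ℕ → Bool) (A : Finset V) (δ : ℝ) (i n : ℕ) :
    TT e ω A δ (i + n) = TT e ω A δ i * TT (sh i e) (sh i ω) (A.image (gp e ω i)) δ n := by
  induction n with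
  | zero =>
    show TT e ω A δ i = TT e ω A δ i * 1
    rw [Matrix.mul_one]
  | succ n ih =>
    show TT e ω A δ (i + n) * Mx e ω A δ (i + n) = TT e ω A δ i *
      (TT (sh i e) (sh i ω) (A.image (gp e ω i)) δ n *
        Mx (sh i e) (sh i ω) (A.image (gp e ω i)) δ n)
    rw [ih, Mx_sh, Matrix.mul_assoc]

theorem bas2 : S_BAS2 := by
  intro V _ _ e ω A δ h0 h1
  have hT := DS_TT e ω A h0 h1
  refine ⟨fun n => (hT n).nn, fun n => (hT n).row, fun n => (hT n).col,
    fun n x hx y => TT_row e ω A δ n hx y, ?_, TT_add e ω A δ⟩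
  intro n x hx y hy
  obtain ⟨a, ha, rfl⟩ := Finset.mem_image.1 hy
  have hc := (hT n).col (gp e ω n a)
  have hr : TT e ω A δ n a (gp e ω n a) = 1 := by
    rw [TT_row e ω A δ n ha, if_pos rfl]
  have hxa : x ≠ a := fun h => hx (h ▸ ha)
  rw [← Finset.add_sum_erase _ _ (Finset.mem_univ a), hr] at hc
  have hs : ∑ z ∈ Finset.univ.erase a, TT e ω A δ n z (gp e ω n a) = 0 := by linarith
  exact (Finset.sum_eq_zero_iff_of_nonneg fun z _ => (hT n).nn _ _).1 hs x
    (Finset.mem_erase.2 ⟨hxa, Finset.mem_univ _⟩)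

end Pool.Agent.Q68.LC
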