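import Pool.Agent.Q292.LC.Stm1

/-! Project LC: basic facts on circuits (BAS1). -/

set_option autoImplicit false

namespace Pool.Agent.Q68.LC

open Finset Equiv Matrix Q292.LC

section
variable {V : Type} [DecidableEq V]

lemma gp_add (e : ℕ → V × V) (ω : ℕ → Bool) (i n : ℕ) :
    gp e ω (i + n) = gp (sh i e) (sh i ω) n * gp e ω i := by
  induction n with
  | zero => simp [gp]
  | succ n ih =>
    rw [← add_assoc]
    simp only [gp, ih, sh, add_comm n i]
    split_ifs
    · rw [mul_assoc]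
    · rfl

lemma tch_iff {e : ℕ → V × V} {ω : ℕ → Bool} {A : Finset V} {k : ℕ} :
    tch e ω A k ↔ ∃ a ∈ A, gp e ω k a = (e k).1 ∨ gp e ω k a = (e k).2 := Iff.rfl

/-- a step which does not touch `A` does not move the particles of `A` -/
lemma gp_succ_not {e : ℕ → V × V} {ω : ℕ → Bool} {A : Finset V} {k : ℕ} (h : ¬ tch e ω A k)
    {a : V} (ha : a ∈ A) : gp e ω (k + 1) a = gp e ω k a := by
  rw [tch_iff] at h
  push Not at h
  obtain ⟨h1, h2⟩ := h a ha
  simp only [gp]
  split_ifs
  · rw [Perm.mul_apply, swap_apply_of_ne_of_ne h1 h2]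
  · rfl

lemma agree {e : ℕ → V × V} {ω ω' : ℕ → Bool} {A : Finset V} {n : ℕ}
    (h : ∀ k < n, tch e ω A k → ω k = ω' k) :
    (∀ k ≤ n, ∀ a ∈ A, gp e ω k a = gp e ω' k a) ∧ (∀ k < n, (tch e ω A k ↔ tch e ω' A k)) := by
  have key : ∀ k, k ≤ n → ∀ a ∈ A, gp e ω k a = gp e ω' k a := by
    intro k
    induction k with
    | zero => intro _ a _; rfl
    | succ k ih =>
      intro hk a ha
      have ih' := ih (by omega)
      have ht : tch e ω A k ↔ tch e ω' A k := by
        rw [tch_iff, tch_iff]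
        constructor
        · rintro ⟨b, hb, h1⟩
          exact ⟨b, hb, by rwa [← ih' b hb]⟩
        · rintro ⟨b, hb, h1⟩
          exact ⟨b, hb, by rwa [ih' b hb]⟩
      by_cases hc : tch e ω A k
      · have hω := h k (by omega) hc
        simp only [gp, ← hω]
        split_ifs
        · rw [Perm.mul_apply, Perm.mul_apply, ih' a ha]
        · exact ih' a ha
      · rw [gp_succ_not hc ha, gp_succ_not (fun h' => hc (ht.2 h')) ha]
        exact ih' a ha
  refine ⟨key, ?_⟩
  intro k hk
  rw [tch_iff, tch_iff]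
  constructor
  · rintro ⟨b, hb, h1⟩
    exact ⟨b, hb, by rwa [← key k hk.le b hb]⟩
  · rintro ⟨b, hb, h1⟩
    exact ⟨b, hb, by rwa [key k hk.le b hb]⟩

end

lemma pm_mul {V : Type} [Fintype V] [DecidableEq V] (g h : Perm V) : pm g * pm h = pm (h * g) := by
  ext a b
  rw [Matrix.mul_apply]
  unfold pm
  simp only [Matrix.of_apply, ite_mul, one_mul, zero_mul, Finset.sum_ite_eq, Finset.mem_univ,
    if_true, Perm.mul_apply]
  congr

theorem bas1 : S_BAS1 := by
  intro V _ _ e ω
  exact ⟨gp_add e ω, pm_mul, fun A n ω' h => agree h⟩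

end Pool.Agent.Q68.LC
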