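import Pool.Agent.Q292.LC.Stm1

/-! Project LC: bordered determinant and Green function (GRN). -/

set_option autoImplicit false

namespace Pool.Agent.Q68.LC

open Finset Equiv Matrix Q292.LC Filter Topology

variable {V : Type} [Fintype V] [DecidableEq V]

/-- substochastic matrices -/
structure SS (M : Matrix V V ℝ) : Prop where
  nn : ∀ x y, 0 ≤ M x y
  row : ∀ x, ∑ y, M x y ≤ 1

lemma SS_dg {T : Matrix V V ℝ} (h : SS T) (U : Finset V) : SS (dg U * T) := by
  have h1 : ∀ x y, (dg U * T) x y = (if x ∈ U then 1 else 0) * T x y := by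
    intro x y
    unfold dg
    rw [Matrix.diagonal_mul]
  refine ⟨fun x y => ?_, fun x => ?_⟩
  · rw [h1]
    exact mul_nonneg (by split_ifs <;> norm_num) (h.nn _ _)
  · simp only [h1, ← Finset.mul_sum]
    have h2 := h.row x
    have h3 : 0 ≤ ∑ y, T x y := Finset.sum_nonneg fun y _ => h.nn _ _
    split_ifs <;> linarith

lemma SS_pow {M : Matrix V V ℝ} (h : SS M) (n : ℕ) : SS (M ^ n) := by
  induction n with
  | zero =>
    rw [pow_zero]
    refine ⟨fun x y => ?_, fun x => ?_⟩
    · rw [Matrix.one_apply]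
      split_ifs <;> norm_num
    · simp only [Matrix.one_apply]
      rw [Finset.sum_ite_eq, if_pos (Finset.mem_univ _)]
  | succ n ih =>
    rw [pow_succ]
    refine ⟨fun x y => ?_, fun x => ?_⟩
    · rw [Matrix.mul_apply]
      exact Finset.sum_nonneg fun z _ => mul_nonneg (ih.nn _ _) (h.nn _ _)
    · simp only [Matrix.mul_apply]
      rw [Finset.sum_comm]
      simp only [← Finset.mul_sum]
      calc ∑ z, (M ^ n) x z * ∑ y, M z y ≤ ∑ z, (M ^ n) x z * 1 :=
            Finset.sum_le_sum fun z _ => mul_le_mul_of_nonneg_left (h.row z) (ih.nn _ _)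
        _ ≤ 1 := by simpa using ih.row x

lemma SS_le {M : Matrix V V ℝ} (h : SS M) (x y : V) : M x y ≤ 1 :=
  (Finset.single_le_sum (f := fun y => M x y) (fun z _ => h.nn x z) (Finset.mem_univ y)).trans
    (h.row x)

lemma det_ne {S : Matrix V V ℝ} (h : SS S) {w : ℝ} (h0 : 0 ≤ w) (h1 : w < 1) :
    (1 - w • S).det ≠ 0 := by
  apply det_ne_zero_of_sum_row_lt_diag
  intro k
  have h2 : ∀ j ∈ Finset.univ.erase k, ‖(1 - w • S) k j‖ = w * S k j := by
    intro j hj
    rw [Matrix.sub_apply, Matrix.smul_apply, Matrix.one_apply_ne (Finset.ne_of_mem_erase hj).symm,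
      smul_eq_mul, zero_sub, norm_neg, Real.norm_eq_abs, abs_of_nonneg (mul_nonneg h0 (h.nn _ _))]
  rw [Finset.sum_congr rfl h2, ← Finset.mul_sum]
  have h3 := h.row k
  rw [← Finset.add_sum_erase _ _ (Finset.mem_univ k)] at h3
  have h4 := SS_le h k k
  have h5 := h.nn k k
  rw [Matrix.sub_apply, Matrix.smul_apply, Matrix.one_apply_eq, smul_eq_mul, Real.norm_eq_abs,
    abs_of_nonneg (by nlinarith)]
  have h6 : 0 ≤ ∑ j ∈ Finset.univ.erase k, S k j := Finset.sum_nonneg fun j _ => h.nn _ _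
  nlinarith

lemma det_pos {S : Matrix V V ℝ} (h : SS S) {w : ℝ} (h0 : 0 ≤ w) (h1 : w < 1) :
    0 < (1 - w • S).det := by
  by_contra hc
  push Not at hc
  have hcont : Continuous (fun t : ℝ => (1 - t • S).det) := by
    apply Continuous.matrix_det
    fun_prop
  have h2 : (0 : ℝ) ∈ (fun t : ℝ => (1 - t • S).det) '' Set.Icc 0 w := by
    apply intermediate_value_Icc' h0 hcont.continuousOn
    refine ⟨hc, ?_⟩
    simp
  obtain ⟨t, ht, h3⟩ := h2
  exact det_ne h ht.1 (ht.2.trans_lt h1) h3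

theorem grn : S_GRN := by
  intro V _ _ T w κ U x y hT0 hT1 h0 h1
  have hT : SS T := ⟨hT0, hT1⟩
  have hS := SS_dg hT U
  obtain ⟨S, hSd⟩ : ∃ S, S = dg U * T := ⟨_, rfl⟩
  rw [← hSd] at hS
  have hpos := det_pos hS h0 h1
  have hd : dS w U T = (1 - w • S).det := by
    unfold dS
    rw [hSd]
  refine ⟨hd ▸ hpos, fun hN => ?_⟩
  rw [← hSd] at hN
  obtain ⟨M, hM⟩ : ∃ M, M = 1 - w • S := ⟨_, rfl⟩
  rw [← hM] at hpos hd
  have hunit : IsUnit M.det := isUnit_iff_ne_zero.2 hpos.ne'
  -- bordered determinant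
  have hbd : bd w U T x y = M.det * (1 + w * (T * M⁻¹) x y) := by
    have e1 : (1 - w • (dg U * T) + w • Matrix.of fun a b => if a = y then T x b else 0) =
        M + replicateCol Unit (fun a => if a = y then (1:ℝ) else 0) *
          replicateRow Unit (fun b => w * T x b) := by
      rw [← hSd, ← hM]
      congr 1
      ext a b
      rw [Matrix.smul_apply, Matrix.of_apply, Matrix.mul_apply]
      simp
    unfold bd
    rw [e1, Matrix.det_add_replicateCol_mul_replicateRow hunit]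
    congr 1
    rw [Matrix.det_unique, Matrix.add_apply, Matrix.one_apply_eq]
    congr 1
    rw [Matrix.mul_assoc, Matrix.mul_apply]
    simp only [Matrix.replicateRow_apply]
    rw [Matrix.mul_apply, Finset.mul_sum]
    refine Finset.sum_congr rfl fun z _ => ?_
    rw [Matrix.mul_apply]
    simp only [Matrix.replicateCol_apply, mul_ite, mul_one, mul_zero]
    rw [Finset.sum_ite_eq' Finset.univ y, if_pos (Finset.mem_univ _)]
    ring
  have hlim : Tendsto (fun N : ℕ => ∑ k ∈ Finset.range N, w ^ (k + 1) * (T * S ^ k) x y) atTop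
      (𝓝 (w * (T * M⁻¹) x y)) := by
    -- partial sums
    have e1 : ∀ N : ℕ, M * ∑ k ∈ Finset.range N, (w • S) ^ k = 1 - (w • S) ^ N := by
      intro N
      rw [hM]
      exact mul_neg_geom_sum _ _
    have e2 : ∀ N : ℕ, ∑ k ∈ Finset.range N, (w • S) ^ k = M⁻¹ - w ^ N • (M⁻¹ * S ^ N) := by
      intro N
      have h2 : M⁻¹ * (M * ∑ k ∈ Finset.range N, (w • S) ^ k) = M⁻¹ * (1 - (w • S) ^ N) := by
        rw [e1 N]
      rw [Matrix.nonsing_inv_mul_cancel_left _ _ hunit] at h2
      rw [h2, Matrix.mul_sub, Matrix.mul_one, smul_pow, Matrix.mul_smul]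
    have e3 : ∀ N : ℕ, ∑ k ∈ Finset.range N, w ^ (k + 1) * (T * S ^ k) x y =
        w * (T * M⁻¹) x y - w * (w ^ N * (T * (M⁻¹ * S ^ N)) x y) := by
      intro N
      have h3 : ∑ k ∈ Finset.range N, w ^ (k + 1) * (T * S ^ k) x y =
          w * (T * ∑ k ∈ Finset.range N, (w • S) ^ k) x y := by
        rw [Matrix.mul_sum, Matrix.sum_apply, Finset.mul_sum]
        refine Finset.sum_congr rfl fun k _ => ?_
        rw [smul_pow, Matrix.mul_smul, Matrix.smul_apply, smul_eq_mul, pow_succ]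
        ring
      rw [h3, e2, Matrix.mul_sub, Matrix.mul_smul, Matrix.sub_apply, Matrix.smul_apply, smul_eq_mul]
      ring
    -- the error tends to zero
    have e4 : ∀ N : ℕ, |(T * (M⁻¹ * S ^ N)) x y| ≤ ∑ z, |(T * M⁻¹) x z| := by
      intro N
      rw [← Matrix.mul_assoc, Matrix.mul_apply]
      refine (Finset.abs_sum_le_sum_abs _ _).trans (Finset.sum_le_sum fun z _ => ?_)
      rw [abs_mul]
      have h4 := SS_pow hS N
      rw [abs_of_nonneg (h4.nn z y)]
      exact mul_le_of_le_one_right (abs_nonneg _) (SS_le h4 z y)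
    have e5 : Tendsto (fun N : ℕ => w ^ N * (T * (M⁻¹ * S ^ N)) x y) atTop (𝓝 0) := by
      have h5 : Tendsto (fun N : ℕ => w ^ N * ∑ z, |(T * M⁻¹) x z|) atTop (𝓝 0) := by
        have := (tendsto_pow_atTop_nhds_zero_of_lt_one h0 h1).mul_const (∑ z, |(T * M⁻¹) x z|)
        rwa [zero_mul] at this
      refine squeeze_zero_norm (fun N => ?_) h5
      rw [Real.norm_eq_abs, abs_mul, abs_of_nonneg (pow_nonneg h0 N)]
      exact mul_le_mul_of_nonneg_left (e4 N) (pow_nonneg h0 N)
    have e6 : Tendsto (fun N : ℕ => w * (T * M⁻¹) x y - w * (w ^ N * (T * (M⁻¹ * S ^ N)) x y)) atTop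
        (𝓝 (w * (T * M⁻¹) x y - w * 0)) := tendsto_const_nhds.sub (e5.const_mul w)
    rw [mul_zero, sub_zero] at e6
    exact e6.congr fun N => (e3 N).symm
  have hle : w * (T * M⁻¹) x y ≤ κ := le_of_tendsto' hlim hN
  rw [hbd, hd]
  have : M.det * (w * (T * M⁻¹) x y) ≤ M.det * κ := mul_le_mul_of_nonneg_left hle hpos.le
  linarith

end Pool.Agent.Q68.LC
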