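import Pool.Agent.Q292.LC.Stm1

/-! Project LC: expectation over the coins (BAS3). -/

set_option autoImplicit false

namespace Pool.Agent.Q68.LC

open Finset Equiv Matrix Q292.LC

lemma EE_congr {n : ℕ} {δ : ℝ} {F G : (ℕ → Bool) → ℝ}
    (h : ∀ ω, (∀ k, n ≤ k → ω k = false) → F ω = G ω) : EE n δ F = EE n δ G := by
  unfold EE
  refine Finset.sum_congr rfl fun S hS => ?_
  rw [h]
  intro k hk
  rw [decide_eq_false_iff_not]
  intro hkS
  have := Finset.mem_range.1 (Finset.mem_powerset.1 hS hkS)
  omega

lemma EE_const (n : ℕ) (δ c : ℝ) : EE n δ (fun _ => c) = c := by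
  unfold EE
  rw [← Finset.sum_mul]
  have h := Finset.sum_pow_mul_eq_add_pow δ (1 - δ) (Finset.range n)
  rw [Finset.card_range] at h
  rw [h]
  simp

lemma EE_add (n : ℕ) (δ : ℝ) (F G : (ℕ → Bool) → ℝ) :
    EE n δ (fun ω => F ω + G ω) = EE n δ F + EE n δ G := by
  unfold EE
  rw [← Finset.sum_add_distrib]
  exact Finset.sum_congr rfl fun S _ => by ring

lemma EE_smul (n : ℕ) (δ c : ℝ) (F : (ℕ → Bool) → ℝ) :
    EE n δ (fun ω => c * F ω) = c * EE n δ F := by
  unfold EE
  rw [Finset.mul_sum]
  exact Finset.sum_congr rfl fun S _ => by ring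

lemma EE_mono {n : ℕ} {δ : ℝ} (h0 : 0 ≤ δ) (h1 : δ ≤ 1) {F G : (ℕ → Bool) → ℝ}
    (h : ∀ ω, F ω ≤ G ω) : EE n δ F ≤ EE n δ G := by
  unfold EE
  refine Finset.sum_le_sum fun S _ => mul_le_mul_of_nonneg_left (h _) ?_
  have : 0 ≤ 1 - δ := by linarith
  positivity

lemma EE_succ (n : ℕ) (δ : ℝ) (F : (ℕ → Bool) → ℝ) :
    EE (n + 1) δ F = (1 - δ) * EE n δ F + δ * EE n δ (fun ω => F (Function.update ω n true)) := by
  unfold EE
  rw [Finset.range_add_one, Finset.sum_powerset_insert Finset.notMem_range_self, Finset.mul_sum,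
    Finset.mul_sum]
  congr 1
  · refine Finset.sum_congr rfl fun S hS => ?_
    have hc : S.card ≤ n := by
      have := Finset.card_le_card (Finset.mem_powerset.1 hS)
      rwa [Finset.card_range] at this
    rw [show n + 1 - S.card = (n - S.card) + 1 by omega, pow_succ]
    ring
  · refine Finset.sum_congr rfl fun S hS => ?_
    have hn : n ∉ S := fun h => by
      have := Finset.mem_range.1 (Finset.mem_powerset.1 hS h)
      omega
    rw [Finset.card_insert_of_notMem hn, show n + 1 - (S.card + 1) = n - S.card by omega, pow_succ]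
    have : (fun k => decide (k ∈ insert n S)) =
        Function.update (fun k => decide (k ∈ S)) n true := by
      funext k
      rcases eq_or_ne k n with rfl | hk
      · simp
      · rw [Function.update_of_ne hk]
        simp [hk]
    rw [this]
    ring

lemma EE_rot {n : ℕ} (δ : ℝ) (s : ℕ) (F : (ℕ → Bool) → ℝ) (hn : 0 < n) :
    EE n δ (fun ω => F (rot n s ω)) = EE n δ F := by
  obtain ⟨ρ, hρ⟩ : ∃ ρ : ℕ → ℕ, ρ = fun k => (k + s) % n := ⟨_, rfl⟩
  have hρl : ∀ k, ρ k < n := fun k => by rw [hρ]; exact Nat.mod_lt _ hn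
  have hinj : ∀ k < n, ∀ l < n, ρ k = ρ l → k = l := by
    intro k hk l hl h
    rw [hρ] at h
    have h1 : k + s ≡ l + s [MOD n] := h
    have h2 : k ≡ l [MOD n] := Nat.ModEq.add_right_cancel' s h1
    exact Nat.ModEq.eq_of_lt_of_lt h2 hk hl
  have himg : (Finset.range n).image ρ = Finset.range n := by
    apply Finset.eq_of_subset_of_card_le
    · intro k hk
      obtain ⟨l, -, rfl⟩ := Finset.mem_image.1 hk
      exact Finset.mem_range.2 (hρl l)
    · rw [Finset.card_image_of_injOn]
      intro k hk l hl h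
      exact hinj k (by simpa using hk) l (by simpa using hl) h
  unfold EE
  refine Finset.sum_bij' (fun S _ => (Finset.range n).filter (fun k => ρ k ∈ S))
    (fun T _ => T.image ρ) ?_ ?_ ?_ ?_ ?_
  · intro S _
    exact Finset.mem_powerset.2 (Finset.filter_subset _ _)
  · intro T _
    refine Finset.mem_powerset.2 fun k hk => ?_
    obtain ⟨l, -, rfl⟩ := Finset.mem_image.1 hk
    exact Finset.mem_range.2 (hρl l)
  · intro S hS
    ext k
    rw [Finset.mem_image]
    constructor
    · rintro ⟨l, hl, rfl⟩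
      exact (Finset.mem_filter.1 hl).2
    · intro hk
      have hk2 : k ∈ (Finset.range n).image ρ := by
        rw [himg]
        exact Finset.mem_powerset.1 hS hk
      obtain ⟨l, hl, rfl⟩ := Finset.mem_image.1 hk2
      exact ⟨l, Finset.mem_filter.2 ⟨hl, hk⟩, rfl⟩
  · intro T hT
    ext k
    rw [Finset.mem_filter, Finset.mem_image]
    constructor
    · rintro ⟨hk, l, hl, h⟩
      have hl2 := Finset.mem_range.1 (Finset.mem_powerset.1 hT hl)
      have := hinj l hl2 k (Finset.mem_range.1 hk) h
      rwa [← this]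
    · intro hk
      exact ⟨Finset.mem_powerset.1 hT hk, k, hk, rfl⟩
  · intro S hS
    have hcard : ((Finset.range n).filter (fun k => ρ k ∈ S)).card = S.card := by
      have h1 : ((Finset.range n).filter (fun k => ρ k ∈ S)).image ρ = S := by
        ext k
        rw [Finset.mem_image]
        constructor
        · rintro ⟨l, hl, rfl⟩
          exact (Finset.mem_filter.1 hl).2
        · intro hk
          have hk2 : k ∈ (Finset.range n).image ρ := by
            rw [himg]
            exact Finset.mem_powerset.1 hS hk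
          obtain ⟨l, hl, rfl⟩ := Finset.mem_image.1 hk2
          exact ⟨l, Finset.mem_filter.2 ⟨hl, hk⟩, rfl⟩
      rw [← Finset.card_image_of_injOn (s := (Finset.range n).filter (fun k => ρ k ∈ S)) (f := ρ),
        h1]
      intro k hk l hl h
      exact hinj k (by simpa using (Finset.mem_filter.1 (Finset.mem_coe.1 hk)).1) l
        (by simpa using (Finset.mem_filter.1 (Finset.mem_coe.1 hl)).1) h
    rw [hcard]
    congr 1
    show F (rot n s _) = F _
    congr 1
    funext k
    unfold rot
    by_cases hk : k < n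
    · rw [if_pos hk]
      have : (k ∈ (Finset.range n).filter (fun k => ρ k ∈ S)) ↔ (k + s) % n ∈ S := by
        rw [Finset.mem_filter, Finset.mem_range, hρ]
        exact ⟨fun h => h.2, fun h => ⟨hk, h⟩⟩
      rw [decide_eq_decide]
      exact this.symm
    · rw [if_neg hk, eq_comm, decide_eq_false_iff_not]
      intro h
      exact hk (Finset.mem_range.1 (Finset.mem_filter.1 h).1)

theorem bas3 : S_BAS3 := by
  intro n δ h0 h1
  exact ⟨EE_const n δ, EE_add n δ, EE_smul n δ, fun F G h => EE_mono h0 h1 h, EE_succ n δ,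
    fun s F hn => EE_rot δ s F hn, fun F G h => EE_congr h⟩

end Pool.Agent.Q68.LC
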