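import Pool.Agent.Q68.LC.Bas3

/-! Project LC: all arcs (ARC), from PEEL, P1, P4. -/

set_option autoImplicit false

namespace Pool.Agent.Q68.LC

open Finset Equiv Matrix Q292.LC

lemma inv_of_shape {V : Type} [DecidableEq V] {X R : Finset V} {g : Perm V} (h : Sh X ∅ g R) :
    Inv g R ∧ Disjoint R X := by
  obtain ⟨h1, -, h3⟩ := h
  have hd : Disjoint R X := Finset.disjoint_iff_inter_eq_empty.2 h1
  refine ⟨?_, hd⟩
  have h4 : ∀ a ∈ R, g⁻¹ a ∈ R := fun a ha => h3 a ha (Finset.disjoint_left.1 hd ha)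
  have h5 : R.image (g⁻¹ : Perm V) = R := by
    apply Finset.eq_of_subset_of_card_le
    · intro b hb
      obtain ⟨a, ha, rfl⟩ := Finset.mem_image.1 hb
      exact h4 a ha
    · rw [Finset.card_image_of_injective _ (g⁻¹ : Perm V).injective]
  intro a ha
  rw [← h5] at ha
  obtain ⟨b, hb, rfl⟩ := Finset.mem_image.1 ha
  have h6 : g (g⁻¹ b) = b := g.apply_symm_apply b
  rwa [h6]

theorem arc (hP : S_PEEL) (h1 : S_P1) (h4 : S_P4) : S_ARC := by
  intro V _ _ e n δ w κ Gd hδ0 hδ1 hw0 hw1 hκ hR hmon hG X I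
  induction I using Finset.induction_on with
  | empty =>
    intro _
    rw [Finset.card_empty, pow_zero]
    unfold WW
    refine le_trans (EE_mono hδ0 hδ1 (G := fun _ => 1) fun ω => ?_) (le_of_eq (EE_const n δ 1))
    rw [← h1 V (gp e ω n) w X hw0 hw1]
    refine Finset.sum_le_sum fun A _ => ?_
    have hpos := (h4 V (gp e ω n) 1 w (univ \ (A ∪ X)) hw0 hw1).1.1
    by_cases hs : Sh X ∅ (gp e ω n) A
    · rw [if_pos (inv_of_shape hs)]
      split_ifs
      · exact le_rfl
      · exact mul_nonneg (pow_nonneg hw0 _) hpos.le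
    · rw [if_neg (fun h => hs h.1)]
      split_ifs
      · exact mul_nonneg (pow_nonneg hw0 _) hpos.le
      · exact le_rfl
  | insert x I hx ih =>
    intro hIX
    have hI : I ⊆ X := fun a ha => hIX (Finset.mem_insert_of_mem ha)
    have hxX : x ∈ X := hIX (Finset.mem_insert_self _ _)
    rw [Finset.card_insert_of_notMem hx, pow_succ, mul_comm ((X.card * κ : ℝ) ^ I.card)]
    exact (hP V e n δ w κ Gd hδ0 hδ1 hw0 hw1 hκ hR hmon hG X I hI x hxX hx).trans
      (mul_le_mul_of_nonneg_left (ih hI) (by positivity))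

end Pool.Agent.Q68.LC
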