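import Pool.Agent.Q68.LC.Bas1

/-! Project LC: the rotated circuit (ROT). -/

set_option autoImplicit false

namespace Pool.Agent.Q68.LC

open Finset Equiv Matrix Q292.LC

lemma gp_congr {V : Type} [DecidableEq V] {e e' : ℕ → V × V} {ω ω' : ℕ → Bool} {n : ℕ}
    (he : ∀ k < n, e k = e' k) (h : ∀ k < n, ω k = ω' k) : gp e ω n = gp e' ω' n := by
  induction n with
  | zero => rfl
  | succ n ih =>
    simp only [gp]
    rw [ih (fun k hk => he k (by omega)) (fun k hk => h k (by omega)), h n (by omega),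
      he n (by omega)]

lemma per_mul {V : Type} {e : ℕ → V × V} {u : ℕ} (h : ∀ k, e (k + u) = e k) (j k : ℕ) :
    e (k + j * u) = e k := by
  induction j with
  | zero => simp
  | succ j ih => rw [Nat.succ_mul, ← add_assoc, h, ih]

theorem t_rot : S_ROT := by
  intro V _ _ e u K j hu hj hper ω
  obtain ⟨s, hs⟩ : ∃ s, s = j * u := ⟨_, rfl⟩
  obtain ⟨n, hn⟩ : ∃ n, n = K * u := ⟨_, rfl⟩
  have hsn : s ≤ n := by
    rw [hs, hn]
    exact Nat.mul_le_mul_right u hj
  have hshs : sh s e = e := by
    funext k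
    unfold sh
    rw [hs]
    exact per_mul hper j k
  have hshn : sh (n - s) e = e := by
    funext k
    unfold sh
    rw [hs, hn, ← Nat.sub_mul]
    exact per_mul hper (K - j) k
  rw [← hs, ← hn]
  have ha : ∀ k ≤ n - s, gp e (rot n s ω) k * gp e ω s = gp e ω (s + k) := by
    intro k hk
    rw [gp_add, hshs]
    congr 1
    refine gp_congr (fun _ _ => rfl) fun l hl => ?_
    unfold rot sh
    rw [if_pos (by omega), Nat.mod_eq_of_lt (by omega)]
  have hb : ∀ k ≤ s, gp e (rot n s ω) (n - s + k) * gp e ω s = gp e ω k * gp e ω n := by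
    intro k hk
    rw [gp_add, hshn, mul_assoc, ha _ le_rfl, Nat.add_sub_cancel' hsn]
    congr 1
    refine gp_congr (fun _ _ => rfl) fun l hl => ?_
    show (if l + (n - s) < n then ω ((l + (n - s) + s) % n) else false) = ω l
    rw [if_pos (by omega), show l + (n - s) + s = l + n by omega, Nat.add_mod_right,
      Nat.mod_eq_of_lt (by omega)]
  refine ⟨ha, hb, ?_⟩
  have h1 := hb s le_rfl
  rw [Nat.sub_add_cancel hsn] at h1
  rw [eq_mul_inv_iff_mul_eq]
  exact h1

end Pool.Agent.Q68.LC
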